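import Pool.Agent.helper26.AA.N1

/-! # Project AA, module N2: the sums `Gs` -/

namespace Pool.Agent.helper71.AA

open Finset

theorem N2_pr_cast (K : Finset ℕ) : pr K = ((∏ l ∈ K, l : ℕ) : ℝ) := by
  unfold pr; push_cast; rfl

theorem N2_one_le_pr (K : Finset ℕ) (hK : ∀ l ∈ K, l.Prime) : 1 ≤ pr K := by
  rw [N2_pr_cast]
  exact_mod_cast Finset.prod_pos (fun l hl => (hK l hl).pos)

theorem N2_ph_pos (K : Finset ℕ) (hK : ∀ l ∈ K, l.Prime) : 0 < ph K := by
  unfold ph
  apply Finset.prod_pos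
  intro l hl
  have : (2 : ℝ) ≤ l := by exact_mod_cast (hK l hl).two_le
  linarith

theorem N2_ph_le (K : Finset ℕ) (hK : ∀ l ∈ K, l.Prime) : ph K ≤ pr K := by
  unfold ph pr
  apply Finset.prod_le_prod
  · intro l hl
    have : (2 : ℝ) ≤ l := by exact_mod_cast (hK l hl).two_le
    linarith
  · intro l hl
    linarith

theorem N2_ph_expand (K : Finset ℕ) (hK : ∀ l ∈ K, l.Prime) :
    1 / ph K = 1 / pr K * ∑ D ∈ K.powerset, 1 / ph D := by
  unfold ph pr
  have h1 : ∀ D : Finset ℕ, 1 / ∏ l ∈ D, ((l : ℝ) - 1) = ∏ l ∈ D, 1 / ((l : ℝ) - 1) := by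
    intro D
    rw [Finset.prod_div_distrib, Finset.prod_const_one]
  have h2 : 1 / ∏ l ∈ K, (l : ℝ) = ∏ l ∈ K, 1 / (l : ℝ) := by
    rw [Finset.prod_div_distrib, Finset.prod_const_one]
  simp_rw [h1]
  rw [h2, ← Finset.prod_one_add, ← Finset.prod_mul_distrib]
  apply Finset.prod_congr rfl
  intro l hl
  have : (2 : ℝ) ≤ l := by exact_mod_cast (hK l hl).two_le
  have h3 : (l : ℝ) - 1 ≠ 0 := by linarith
  have h4 : (l : ℝ) ≠ 0 := by linarith
  field_simp
  ring

theorem N2_prime (w Z : ℕ) (K : Finset ℕ) (hK : K ⊆ Qs w Z) : ∀ l ∈ K, l.Prime := by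
  intro l hl
  exact (mem_filter.1 (hK hl)).2

theorem N2_coprime (w Z : ℕ) (K : Finset ℕ) (hK : K ⊆ Qs w Z) :
    (∏ l ∈ K, l : ℕ).Coprime (primorial w) := by
  apply Nat.Coprime.prod_left
  intro l hl
  have h1 := mem_filter.1 (hK hl)
  rw [h1.2.coprime_iff_not_dvd, h1.2.dvd_primorial_iff]
  have := (mem_Ioc.1 h1.1).1
  omega

theorem N2_diff (Q : Finset ℕ) (x y : ℝ) (h : y ≤ x) : Gs Q x - Gs Q y =
    ∑ K ∈ Q.powerset.filter (fun K => y < pr K ∧ pr K ≤ x), 1 / ph K := by
  unfold Gs Sub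
  rw [sub_eq_iff_eq_add]
  rw [← sum_union]
  · apply sum_congr _ (fun _ _ => rfl)
    ext K
    simp only [mem_filter, mem_union, mem_powerset]
    constructor
    · rintro ⟨h1, h2⟩
      rcases lt_or_ge y (pr K) with h3 | h3
      · exact Or.inl ⟨h1, h3, h2⟩
      · exact Or.inr ⟨h1, h3⟩
    · rintro (⟨h1, h2, h3⟩ | ⟨h1, h2⟩)
      · exact ⟨h1, h3⟩
      · exact ⟨h1, h2.trans h⟩
  · rw [Finset.disjoint_left]
    intro K hK hK'
    simp only [mem_filter, mem_powerset] at hK hK'
    linarith [hK.2.1, hK'.2]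

/-- sum over the subsets is at most the sum over the integers -/
theorem N2_le_inv (w Z : ℕ) (Q : Finset ℕ) (hQ : Q ⊆ Qs w Z) (x y : ℝ) (hy : 0 < y)
    (hx : 0 ≤ x) :
    ∑ K ∈ Q.powerset.filter (fun K => y < pr K ∧ pr K ≤ x), 1 / pr K ≤
      ∑ m ∈ (Ioc ⌊y⌋₊ ⌊x⌋₊).filter (fun m => m.Coprime (primorial w)), 1 / (m : ℝ) := by
  have hinj : Set.InjOn (fun K : Finset ℕ => ∏ l ∈ K, l)
      (Q.powerset.filter (fun K => y < pr K ∧ pr K ≤ x) : Finset (Finset ℕ)) := by
    intro K hK K' hK' h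
    have hK1 := (mem_powerset.1 (mem_filter.1 hK).1).trans hQ
    have hK2 := (mem_powerset.1 (mem_filter.1 hK').1).trans hQ
    have e1 := Nat.primeFactors_prod (N2_prime w Z K hK1)
    have e2 := Nat.primeFactors_prod (N2_prime w Z K' hK2)
    simp only at h
    rw [← e1, ← e2, h]
  calc ∑ K ∈ Q.powerset.filter (fun K => y < pr K ∧ pr K ≤ x), 1 / pr K
      = ∑ K ∈ Q.powerset.filter (fun K => y < pr K ∧ pr K ≤ x),
          (fun m : ℕ => 1 / (m : ℝ)) ((fun K : Finset ℕ => ∏ l ∈ K, l) K) := by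
        apply sum_congr rfl
        intro K _
        simp only
        rw [N2_pr_cast]
    _ = ∑ m ∈ (Q.powerset.filter (fun K => y < pr K ∧ pr K ≤ x)).image
          (fun K : Finset ℕ => ∏ l ∈ K, l), 1 / (m : ℝ) := by
        rw [sum_image hinj]
    _ ≤ _ := by
        apply sum_le_sum_of_subset_of_nonneg
        · intro m hm
          obtain ⟨K, hK, rfl⟩ := mem_image.1 hm
          simp only [mem_filter, mem_powerset] at hK
          rw [N2_pr_cast] at hK
          simp only [mem_filter, mem_Ioc]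
          refine ⟨⟨(Nat.floor_lt hy.le).2 hK.2.1, Nat.le_floor hK.2.2⟩, ?_⟩
          exact N2_coprime w Z K (hK.1.trans hQ)
        · intro m _ _
          positivity

theorem N2_exp (t : ℝ) (h0 : 0 ≤ t) (h1 : t ≤ 1) : Real.exp t ≤ 1 + 2 * t := by
  have h := Real.abs_exp_sub_one_sub_id_le (x := t) (by rw [abs_of_nonneg h0]; exact h1)
  have h2 := (abs_le.1 h).2
  nlinarith

theorem N2_tele (w Z : ℕ) (hw : 1 ≤ w) :
    ∑ l ∈ Ioc w Z, 1 / ((l : ℝ) * (l - 1)) ≤ 1 / (w : ℝ) := by
  by_cases h : w ≤ Z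
  · have hw' : (1 : ℝ) ≤ w := by exact_mod_cast hw
    have key : ∑ l ∈ Ioc w Z, 1 / ((l : ℝ) * (l - 1)) = 1 / (w : ℝ) - 1 / (Z : ℝ) := by
      induction Z, h using Nat.le_induction with
      | base => simp
      | succ n hn ih =>
        have h1 : Ioc w (n + 1) = insert (n + 1) (Ioc w n) := by
          ext m; simp only [mem_Ioc, mem_insert]; omega
        rw [h1, sum_insert (by simp), ih]
        have hn' : (w : ℝ) ≤ n := by exact_mod_cast hn
        have h2 : (n : ℝ) ≠ 0 := by linarith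
        have h3 : (n : ℝ) + 1 ≠ 0 := by linarith
        have h4 : (w : ℝ) ≠ 0 := by linarith
        push_cast
        rw [show (n : ℝ) + 1 - 1 = n by ring]
        field_simp
        ring
    rw [key]
    have : 0 ≤ 1 / (Z : ℝ) := by positivity
    linarith
  · rw [Ioc_eq_empty (by omega)]
    simp

theorem N2_sum_phpr (w Z : ℕ) (hw : 1 ≤ w) (Q : Finset ℕ) (hQ : Q ⊆ Qs w Z) :
    ∑ D ∈ Q.powerset, 1 / (ph D * pr D) ≤ 1 + 2 / (w : ℝ) := by
  have h1 : ∀ D : Finset ℕ, 1 / (ph D * pr D) = ∏ l ∈ D, 1 / ((l : ℝ) * (l - 1)) := by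
    intro D
    unfold ph pr
    rw [Finset.prod_div_distrib, Finset.prod_const_one, ← Finset.prod_mul_distrib]
    congr 1
    apply Finset.prod_congr rfl
    intro l _
    ring
  simp_rw [h1]
  rw [← Finset.prod_one_add]
  have hpos : ∀ l ∈ Q, 0 ≤ 1 / ((l : ℝ) * (l - 1)) := by
    intro l hl
    have : (2 : ℝ) ≤ l := by exact_mod_cast (N2_prime w Z Q hQ l hl).two_le
    have : 0 ≤ (l : ℝ) * (l - 1) := by nlinarith
    positivity
  calc ∏ l ∈ Q, (1 + 1 / ((l : ℝ) * (l - 1)))
      ≤ ∏ l ∈ Q, Real.exp (1 / ((l : ℝ) * (l - 1))) := by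
        apply Finset.prod_le_prod
        · intro l hl
          have := hpos l hl
          linarith
        · intro l _
          have := Real.add_one_le_exp (1 / ((l : ℝ) * (l - 1)))
          linarith
    _ = Real.exp (∑ l ∈ Q, 1 / ((l : ℝ) * (l - 1))) := by rw [Real.exp_sum]
    _ ≤ Real.exp (1 / (w : ℝ)) := by
        apply Real.exp_le_exp.2
        refine le_trans ?_ (N2_tele w Z hw)
        apply sum_le_sum_of_subset_of_nonneg
        · intro l hl
          exact (mem_filter.1 (hQ hl)).1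
        · intro l hl _
          have h2 := (mem_Ioc.1 hl).1
          have : (1 : ℝ) ≤ l := by exact_mod_cast (by omega : 1 ≤ l)
          have : 0 ≤ (l : ℝ) * (l - 1) := by nlinarith
          positivity
    _ ≤ 1 + 2 * (1 / (w : ℝ)) := by
        have hw' : (1 : ℝ) ≤ w := by exact_mod_cast hw
        apply N2_exp
        · positivity
        · rw [div_le_one (by linarith)]; exact hw'
    _ = _ := by ring

theorem Gs_upper (w : ℕ) (hw : 10 ≤ w) : ∃ C : ℝ, 0 < C ∧ ∀ (Z : ℕ) (Q : Finset ℕ), Q ⊆ Qs w Z →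
    ∀ x y : ℝ, 0 < y → y ≤ x →
      Gs Q x - Gs Q y ≤ (1 + 2 / w) * Aw w * Real.log (x / y) + C := by
  obtain ⟨C, hC, hinv⟩ := inv_sum (primorial w) (primorial_pos w)
  have hw' : (10 : ℝ) ≤ w := by exact_mod_cast hw
  have hA : 0 ≤ Aw w := by unfold Aw; positivity
  refine ⟨(1 + 2 / w) * C, by positivity, ?_⟩
  intro Z Q hQ x y hy hyx
  have hlog : 0 ≤ Real.log (x / y) := by
    apply Real.log_nonneg
    rw [le_div_iff₀ hy]; linarith
  have hx : 0 < x := lt_of_lt_of_le hy hyx
  have hQp := N2_prime w Z Q hQ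
  rw [N2_diff Q x y hyx]
  -- expand
  have e1 : ∑ K ∈ Q.powerset.filter (fun K => y < pr K ∧ pr K ≤ x), 1 / ph K =
      ∑ K ∈ Q.powerset.filter (fun K => y < pr K ∧ pr K ≤ x),
        ∑ D ∈ Q.powerset, if D ⊆ K then 1 / pr K * (1 / ph D) else 0 := by
    apply sum_congr rfl
    intro K hK
    have hKQ := mem_powerset.1 (mem_filter.1 hK).1
    rw [N2_ph_expand K (fun l hl => hQp l (hKQ hl)), mul_sum, ← sum_filter]
    apply sum_congr _ (fun _ _ => rfl)
    ext D
    simp only [mem_powerset, mem_filter]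
    exact ⟨fun h => ⟨h.trans hKQ, h⟩, fun h => h.2⟩
  rw [e1, sum_comm]
  have e2 : ∀ D ∈ Q.powerset,
      ∑ K ∈ Q.powerset.filter (fun K => y < pr K ∧ pr K ≤ x),
        (if D ⊆ K then 1 / pr K * (1 / ph D) else 0) ≤
      1 / (ph D * pr D) * (Aw w * Real.log (x / y) + C) := by
    intro D hD
    have hDQ := mem_powerset.1 hD
    have hDp : ∀ l ∈ D, l.Prime := fun l hl => hQp l (hDQ hl)
    have hprD := N2_one_le_pr D hDp
    have hphD := N2_ph_pos D hDp
    have hprD0 : 0 < pr D := by linarith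
    rw [← sum_filter]
    -- the inner sum
    have e3 : ∑ K ∈ (Q.powerset.filter (fun K => y < pr K ∧ pr K ≤ x)).filter (fun K => D ⊆ K),
        1 / pr K * (1 / ph D) ≤ 1 / (ph D * pr D) *
        ∑ K ∈ Q.powerset.filter (fun K => y / pr D < pr K ∧ pr K ≤ x / pr D), 1 / pr K := by
      rw [mul_sum]
      have hsplit : ∀ K ∈ (Q.powerset.filter (fun K => y < pr K ∧ pr K ≤ x)).filter
          (fun K => D ⊆ K), pr K = pr (K \ D) * pr D := by
        intro K hK
        have hDK := (mem_filter.1 hK).2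
        unfold pr
        rw [Finset.prod_sdiff hDK]
      have hinj : Set.InjOn (fun K : Finset ℕ => K \ D)
          ((Q.powerset.filter (fun K => y < pr K ∧ pr K ≤ x)).filter (fun K => D ⊆ K) :
            Finset (Finset ℕ)) := by
        intro K hK K' hK' h
        have h1 := (mem_filter.1 hK).2
        have h2 := (mem_filter.1 hK').2
        simp only at h
        rw [← Finset.sdiff_union_of_subset h1, ← Finset.sdiff_union_of_subset h2, h]
      calc ∑ K ∈ (Q.powerset.filter (fun K => y < pr K ∧ pr K ≤ x)).filter (fun K => D ⊆ K),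
            1 / pr K * (1 / ph D)
          = ∑ K ∈ (Q.powerset.filter (fun K => y < pr K ∧ pr K ≤ x)).filter (fun K => D ⊆ K),
            (fun K => 1 / (ph D * pr D) * (1 / pr K)) ((fun K : Finset ℕ => K \ D) K) := by
            apply sum_congr rfl
            intro K hK
            simp only
            rw [hsplit K hK]
            have hKQ := mem_powerset.1 (mem_filter.1 (mem_filter.1 hK).1).1
            have : 0 < pr (K \ D) := by
              have := N2_one_le_pr (K \ D) (fun l hl => hQp l (hKQ (mem_sdiff.1 hl).1))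
              linarith
            field_simp
        _ = ∑ K ∈ ((Q.powerset.filter (fun K => y < pr K ∧ pr K ≤ x)).filter
              (fun K => D ⊆ K)).image (fun K : Finset ℕ => K \ D),
              1 / (ph D * pr D) * (1 / pr K) := by
            rw [sum_image hinj]
        _ ≤ _ := by
            apply sum_le_sum_of_subset_of_nonneg
            · intro K' hK'
              obtain ⟨K, hK, rfl⟩ := mem_image.1 hK'
              have hs := hsplit K hK
              simp only [mem_filter, mem_powerset] at hK ⊢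
              refine ⟨(sdiff_subset).trans hK.1.1, ?_, ?_⟩
              · rw [div_lt_iff₀ hprD0, ← hs]; exact hK.1.2.1
              · rw [le_div_iff₀ hprD0, ← hs]; exact hK.1.2.2
            · intro K hK _
              have hKQ := mem_powerset.1 (mem_filter.1 hK).1
              have : 0 < pr K := by
                have := N2_one_le_pr K (fun l hl => hQp l (hKQ hl))
                linarith
              positivity
    refine e3.trans ?_
    apply mul_le_mul_of_nonneg_left _ (by positivity)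
    by_cases h1 : 1 ≤ x / pr D
    · refine (N2_le_inv w Z Q hQ (x / pr D) (y / pr D) (by positivity) (by positivity)).trans ?_
      have := (hinv (x / pr D) (y / pr D) (by positivity)
        (div_le_div_of_nonneg_right hyx hprD0.le) h1).1
      have e4 : x / pr D / (y / pr D) = x / y := by
        field_simp
      rw [e4] at this
      exact this
    · push Not at h1
      have : Q.powerset.filter (fun K => y / pr D < pr K ∧ pr K ≤ x / pr D) = ∅ := by
        apply filter_eq_empty_iff.2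
        intro K hK h2
        have := N2_one_le_pr K (fun l hl => hQp l ((mem_powerset.1 hK) hl))
        linarith [h2.2]
      rw [this, sum_empty]
      positivity
  refine (sum_le_sum e2).trans ?_
  rw [← sum_mul]
  have h3 := N2_sum_phpr w Z (by omega) Q hQ
  have h4 : 0 ≤ Aw w * Real.log (x / y) + C := by positivity
  have := mul_le_mul_of_nonneg_right h3 h4
  refine this.trans (le_of_eq ?_)
  ring

/-- the multiples of `d` -/
theorem N2_dvd (w : ℕ) (C : ℝ) (hC : 0 < C)
    (hinv : ∀ x y : ℝ, 0 < y → y ≤ x → 1 ≤ x →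
      (∑ m ∈ (Ioc ⌊y⌋₊ ⌊x⌋₊).filter (fun m => m.Coprime (primorial w)), 1 / (m : ℝ) ≤
        Aw w * Real.log (x / y) + C))
    (d : ℕ) (hd : 0 < d) (x y : ℝ) (hy : 0 < y) (hyx : y ≤ x) :
    ∑ m ∈ (Ioc ⌊y⌋₊ ⌊x⌋₊).filter (fun m => m.Coprime (primorial w)),
      (if d ∣ m then 1 / (m : ℝ) else 0) ≤ 1 / (d : ℝ) * (Aw w * Real.log (x / y) + C) := by
  have hd' : (0 : ℝ) < d := by exact_mod_cast hd
  have hA : 0 ≤ Aw w := by unfold Aw; positivity
  have hlog : 0 ≤ Real.log (x / y) := by
    apply Real.log_nonneg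
    rw [le_div_iff₀ hy]; linarith
  have hx : 0 < x := lt_of_lt_of_le hy hyx
  rw [← sum_filter]
  by_cases h1 : 1 ≤ x / d
  · have h2 := hinv (x / d) (y / d) (by positivity) (div_le_div_of_nonneg_right hyx hd'.le) h1
    have e4 : x / d / (y / d) = x / y := by
      field_simp
    rw [e4] at h2
    have h3 := mul_le_mul_of_nonneg_left h2 (by positivity : 0 ≤ 1 / (d : ℝ))
    refine le_trans ?_ h3
    rw [mul_sum]
    have hinj : Set.InjOn (fun m : ℕ => m / d)
        (((Ioc ⌊y⌋₊ ⌊x⌋₊).filter (fun m => m.Coprime (primorial w))).filter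
          (fun m => d ∣ m) : Finset ℕ) := by
      intro m hm m' hm' h
      have h1 := (mem_filter.1 hm).2
      have h2 := (mem_filter.1 hm').2
      simp only at h
      rw [← Nat.mul_div_cancel' h1, ← Nat.mul_div_cancel' h2, h]
    calc ∑ m ∈ ((Ioc ⌊y⌋₊ ⌊x⌋₊).filter (fun m => m.Coprime (primorial w))).filter
          (fun m => d ∣ m), 1 / (m : ℝ)
        = ∑ m ∈ ((Ioc ⌊y⌋₊ ⌊x⌋₊).filter (fun m => m.Coprime (primorial w))).filter
          (fun m => d ∣ m), (fun m : ℕ => 1 / (d : ℝ) * (1 / (m : ℝ))) ((fun m : ℕ => m / d) m) := by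
          apply sum_congr rfl
          intro m hm
          have h4 := (mem_filter.1 hm).2
          simp only
          rw [Nat.cast_div h4 hd'.ne']
          have : (m : ℝ) ≠ 0 := by
            have := (mem_Ioc.1 (mem_filter.1 (mem_filter.1 hm).1).1).1
            have : 0 < m := by omega
            positivity
          field_simp
      _ = ∑ m ∈ (((Ioc ⌊y⌋₊ ⌊x⌋₊).filter (fun m => m.Coprime (primorial w))).filter
          (fun m => d ∣ m)).image (fun m : ℕ => m / d), 1 / (d : ℝ) * (1 / (m : ℝ)) := by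
          rw [sum_image hinj]
      _ ≤ _ := by
          apply sum_le_sum_of_subset_of_nonneg
          · intro m' hm'
            obtain ⟨m, hm, rfl⟩ := mem_image.1 hm'
            simp only [mem_filter, mem_Ioc] at hm ⊢
            obtain ⟨⟨⟨h5, h6⟩, h7⟩, h8⟩ := hm
            obtain ⟨k, rfl⟩ := h8
            rw [Nat.mul_div_cancel_left _ hd]
            rw [Nat.floor_lt hy.le] at h5
            rw [Nat.le_floor_iff hx.le] at h6
            push_cast at h5 h6
            refine ⟨⟨?_, ?_⟩, ?_⟩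
            · rw [Nat.floor_lt (by positivity), div_lt_iff₀ hd']
              linarith
            · rw [Nat.le_floor_iff (by positivity), le_div_iff₀ hd']
              linarith
            · exact Nat.Coprime.coprime_mul_left h7
          · intro m _ _
            positivity
  · push Not at h1
    have : ((Ioc ⌊y⌋₊ ⌊x⌋₊).filter (fun m => m.Coprime (primorial w))).filter
        (fun m => d ∣ m) = ∅ := by
      apply filter_eq_empty_iff.2
      intro m hm h2
      have h3 := (mem_Ioc.1 (mem_filter.1 hm).1)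
      have h4 : 0 < m := by omega
      have h5 := Nat.le_of_dvd h4 h2
      have h6 : (m : ℝ) ≤ x := (Nat.le_floor_iff hx.le).1 h3.2
      have h7 : (d : ℝ) ≤ m := by exact_mod_cast h5
      rw [div_lt_one hd'] at h1
      linarith
    rw [this, sum_empty]
    positivity

theorem Gs_lower (w : ℕ) (hw : 10 ≤ w) : ∃ C : ℝ, 0 < C ∧ ∀ (Z p g : ℕ), w < p → w < g →
    ∀ x y : ℝ, 1 ≤ y → y ≤ x → x ≤ Z →
      (1 - 6 / w) * Aw w * Real.log (x / y) - C ≤
        Gs (((Qs w Z).erase p).erase g) x - Gs (((Qs w Z).erase p).erase g) y := by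
  obtain ⟨C, hC, hinv⟩ := inv_sum (primorial w) (primorial_pos w)
  have hw' : (10 : ℝ) ≤ w := by exact_mod_cast hw
  have hA : 0 ≤ Aw w := by unfold Aw; positivity
  refine ⟨2 * C, by positivity, ?_⟩
  intro Z p g hp hg x y hy hyx hxZ
  have hlog : 0 ≤ Real.log (x / y) := by
    apply Real.log_nonneg
    rw [le_div_iff₀ (by linarith)]; linarith
  have hx : 1 ≤ x := hy.trans hyx
  have hp' : (w : ℝ) ≤ p := by exact_mod_cast hp.le
  have hg' : (w : ℝ) ≤ g := by exact_mod_cast hg.le
  have hw0 : (0 : ℝ) < w := by linarith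
  set Q := ((Qs w Z).erase p).erase g with hQdef
  have hQ : Q ⊆ Qs w Z := (erase_subset _ _).trans (erase_subset _ _)
  have hQp := N2_prime w Z Q hQ
  rw [N2_diff Q x y hyx]
  set S := (Ioc ⌊y⌋₊ ⌊x⌋₊).filter (fun m => m.Coprime (primorial w)) with hS
  set T : Finset ℕ := S.filter (fun m => Squarefree m ∧ p ∉ m.primeFactors ∧ g ∉ m.primeFactors)
    with hT
  set B := Aw w * Real.log (x / y) + C with hB
  have hB0 : 0 ≤ B := by positivity
  have hinv' : ∀ x y : ℝ, 0 < y → y ≤ x → 1 ≤ x →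
      (∑ m ∈ (Ioc ⌊y⌋₊ ⌊x⌋₊).filter (fun m => m.Coprime (primorial w)), 1 / (m : ℝ) ≤
        Aw w * Real.log (x / y) + C) := fun x y h1 h2 h3 => (hinv x y h1 h2 h3).1
  have hdvd := fun d hd => N2_dvd w C hC hinv' d hd x y (by linarith) hyx
  -- the sum over T
  have s1 : ∑ m ∈ T, 1 / (m : ℝ) ≤
      ∑ K ∈ Q.powerset.filter (fun K => y < pr K ∧ pr K ≤ x), 1 / ph K := by
    have hinj : Set.InjOn (fun m : ℕ => m.primeFactors) (T : Finset ℕ) := by
      intro m hm m' hm' h
      have h1 := (mem_filter.1 hm).2.1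
      have h2 := (mem_filter.1 hm').2.1
      simp only at h
      rw [← Nat.prod_primeFactors_of_squarefree h1, ← Nat.prod_primeFactors_of_squarefree h2, h]
    have hmem : ∀ m ∈ T, m.primeFactors ∈
        Q.powerset.filter (fun K => y < pr K ∧ pr K ≤ x) := by
      intro m hm
      have h1 := mem_filter.1 hm
      have h2 := mem_filter.1 h1.1
      have h3 := mem_Ioc.1 h2.1
      have h4 : pr m.primeFactors = m := by
        rw [N2_pr_cast, Nat.prod_primeFactors_of_squarefree h1.2.1]
      have h5 : y < m := (Nat.floor_lt (by linarith)).1 h3.1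
      have h6 : (m : ℝ) ≤ x := (Nat.le_floor_iff (by linarith)).1 h3.2
      rw [mem_filter, mem_powerset, h4]
      refine ⟨?_, h5, h6⟩
      intro l hl
      have hl' := Nat.mem_primeFactors.1 hl
      rw [hQdef, mem_erase, mem_erase]
      refine ⟨?_, ?_, ?_⟩
      · rintro rfl; exact h1.2.2.2 hl
      · rintro rfl; exact h1.2.2.1 hl
      · unfold Qs
        rw [mem_filter, mem_Ioc]
        refine ⟨⟨?_, ?_⟩, hl'.1⟩
        · by_contra h7
          push Not at h7
          have h8 := (hl'.1.dvd_primorial_iff).2 h7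
          have h9 := Nat.dvd_gcd hl'.2.1 h8
          rw [h2.2] at h9
          exact hl'.1.one_lt.ne' (Nat.dvd_one.1 h9)
        · have h7 := Nat.le_of_dvd (by omega) hl'.2.1
          have h8 : (m : ℝ) ≤ Z := h6.trans hxZ
          have h9 : m ≤ Z := by exact_mod_cast h8
          omega
    calc ∑ m ∈ T, 1 / (m : ℝ)
        = ∑ m ∈ T, (fun K => 1 / pr K) ((fun m : ℕ => m.primeFactors) m) := by
          apply sum_congr rfl
          intro m hm
          have h1 := mem_filter.1 hm
          simp only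
          rw [N2_pr_cast, Nat.prod_primeFactors_of_squarefree h1.2.1]
      _ = ∑ K ∈ T.image (fun m : ℕ => m.primeFactors), 1 / pr K := by
          rw [sum_image hinj]
      _ ≤ ∑ K ∈ Q.powerset.filter (fun K => y < pr K ∧ pr K ≤ x), 1 / pr K := by
          apply sum_le_sum_of_subset_of_nonneg
          · intro K hK
            obtain ⟨m, hm, rfl⟩ := mem_image.1 hK
            exact hmem m hm
          · intro K hK _
            have hKQ := mem_powerset.1 (mem_filter.1 hK).1
            have : 0 < pr K := by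
              have := N2_one_le_pr K (fun l hl => hQp l (hKQ hl))
              linarith
            positivity
      _ ≤ _ := by
          apply sum_le_sum
          intro K hK
          have hKQ := mem_powerset.1 (mem_filter.1 hK).1
          exact one_div_le_one_div_of_le (N2_ph_pos K (fun l hl => hQp l (hKQ hl)))
            (N2_ph_le K (fun l hl => hQp l (hKQ hl)))
  -- the bad terms
  have s2 : ∑ m ∈ S, 1 / (m : ℝ) ≤ ∑ m ∈ T, 1 / (m : ℝ) +
      ∑ m ∈ S, (if p ∣ m then 1 / (m : ℝ) else 0) + ∑ m ∈ S, (if g ∣ m then 1 / (m : ℝ) else 0) +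
      ∑ l ∈ Ioc w ⌊x⌋₊, ∑ m ∈ S, (if l ^ 2 ∣ m then 1 / (m : ℝ) else 0) := by
    have hT' : ∑ m ∈ T, 1 / (m : ℝ) = ∑ m ∈ S,
        if (Squarefree m ∧ p ∉ m.primeFactors ∧ g ∉ m.primeFactors) then 1 / (m : ℝ) else 0 :=
      sum_filter _ _
    rw [hT', sum_comm (s := Ioc w ⌊x⌋₊), ← sum_add_distrib, ← sum_add_distrib,
      ← sum_add_distrib]
    apply sum_le_sum
    intro m hm
    have hnn : ∀ (P : Prop) [Decidable P], 0 ≤ (if P then 1 / (m : ℝ) else 0) := by
      intro P _
      split_ifs <;> positivity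
    have hsn : 0 ≤ ∑ l ∈ Ioc w ⌊x⌋₊, (if l ^ 2 ∣ m then 1 / (m : ℝ) else 0) :=
      sum_nonneg (fun l _ => hnn _)
    have n1 := hnn (Squarefree m ∧ p ∉ m.primeFactors ∧ g ∉ m.primeFactors)
    have n2 := hnn (p ∣ m)
    have n3 := hnn (g ∣ m)
    by_cases c1 : p ∣ m
    · rw [if_pos c1] at n2 ⊢; linarith
    by_cases c2 : g ∣ m
    · rw [if_pos c2] at n3 ⊢; linarith
    by_cases c3 : Squarefree m
    · rw [if_pos ⟨c3, fun h => c1 (Nat.dvd_of_mem_primeFactors h),
        fun h => c2 (Nat.dvd_of_mem_primeFactors h)⟩]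
      linarith
    · rw [Nat.squarefree_iff_prime_squarefree] at c3
      push Not at c3
      obtain ⟨l, hl, hlm⟩ := c3
      have h2 := mem_filter.1 hm
      have h3 := mem_Ioc.1 h2.1
      have hlw : w < l := by
        by_contra h7
        push Not at h7
        have h8 := (hl.dvd_primorial_iff).2 h7
        have h9 := Nat.dvd_gcd ((dvd_mul_right l l).trans hlm) h8
        rw [h2.2] at h9
        exact hl.one_lt.ne' (Nat.dvd_one.1 h9)
      have hlx : l ≤ ⌊x⌋₊ := (Nat.le_of_dvd (by omega) ((dvd_mul_right l l).trans hlm)).trans h3.2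
      have h4 := Finset.single_le_sum (f := fun l => (if l ^ 2 ∣ m then 1 / (m : ℝ) else 0))
        (fun l _ => hnn _) (mem_Ioc.2 ⟨hlw, hlx⟩)
      rw [if_pos (by rw [sq]; exact hlm)] at h4
      linarith
  have s3 : Aw w * Real.log (x / y) - C ≤ ∑ m ∈ S, 1 / (m : ℝ) :=
    (hinv x y (by linarith) hyx hx).2 hy
  have s4 : ∑ m ∈ S, (if p ∣ m then 1 / (m : ℝ) else 0) ≤ 1 / (w : ℝ) * B := by
    refine (hdvd p (by omega)).trans ?_
    apply mul_le_mul_of_nonneg_right _ hB0
    exact one_div_le_one_div_of_le hw0 hp'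
  have s5 : ∑ m ∈ S, (if g ∣ m then 1 / (m : ℝ) else 0) ≤ 1 / (w : ℝ) * B := by
    refine (hdvd g (by omega)).trans ?_
    apply mul_le_mul_of_nonneg_right _ hB0
    exact one_div_le_one_div_of_le hw0 hg'
  have s6 : ∑ l ∈ Ioc w ⌊x⌋₊, ∑ m ∈ S, (if l ^ 2 ∣ m then 1 / (m : ℝ) else 0) ≤
      1 / (w : ℝ) * B := by
    calc ∑ l ∈ Ioc w ⌊x⌋₊, ∑ m ∈ S, (if l ^ 2 ∣ m then 1 / (m : ℝ) else 0)
        ≤ ∑ l ∈ Ioc w ⌊x⌋₊, 1 / ((l : ℝ) * (l - 1)) * B := by
          apply sum_le_sum
          intro l hl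
          have h1 := (mem_Ioc.1 hl).1
          have h0 : 0 < l := by omega
          refine (hdvd (l ^ 2) (by positivity)).trans ?_
          apply mul_le_mul_of_nonneg_right _ hB0
          have h2 : (10 : ℝ) ≤ l := by exact_mod_cast (by omega : 10 ≤ l)
          apply one_div_le_one_div_of_le (by nlinarith)
          push_cast
          nlinarith
      _ = (∑ l ∈ Ioc w ⌊x⌋₊, 1 / ((l : ℝ) * (l - 1))) * B := by rw [sum_mul]
      _ ≤ _ := mul_le_mul_of_nonneg_right (N2_tele w _ (by omega)) hB0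
  have h10 : 3 * (1 / (w : ℝ)) * B ≤ 6 / w * (Aw w * Real.log (x / y)) + C := by
    have h11 : 0 ≤ Aw w * Real.log (x / y) := by positivity
    have h12 : 3 * (1 / (w : ℝ)) ≤ 6 / w := by
      rw [mul_one_div]
      apply div_le_div_of_nonneg_right _ hw0.le
      norm_num
    have h13 : 3 * (1 / (w : ℝ)) ≤ 1 := by
      rw [mul_one_div, div_le_one hw0]
      linarith
    rw [hB, mul_add]
    have := mul_le_mul_of_nonneg_right h12 h11
    have := mul_le_mul_of_nonneg_right h13 hC.le
    linarith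
  have h14 : (1 - 6 / (w : ℝ)) * Aw w * Real.log (x / y) =
      Aw w * Real.log (x / y) - 6 / w * (Aw w * Real.log (x / y)) := by ring
  rw [h14]
  linarith

end Pool.Agent.helper71.AA
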