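import Pool.Agent.helper71.AA.Defs

/-! # Project AA, module N1: reciprocals of the integers prime to `W` -/

namespace Pool.Agent.helper71.AA

open Finset

/-- the number of `1 ≤ m ≤ n` prime to `W` -/
def N1_cnt (W n : ℕ) : ℕ := ((Ioc 0 n).filter (fun m => m.Coprime W)).card

theorem N1_cnt_add (W n : ℕ) : N1_cnt W (n + W) = N1_cnt W n + W.totient := by
  unfold N1_cnt
  have h1 : Ioc 0 (n + W) = Ioc 0 n ∪ Ico (n + 1) (n + 1 + W) := by
    ext m; simp only [mem_Ioc, mem_union, mem_Ico]; omega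
  have h2 : Disjoint ((Ioc 0 n).filter (fun m => m.Coprime W))
      ((Ico (n + 1) (n + 1 + W)).filter (fun m => m.Coprime W)) := by
    rw [Finset.disjoint_left]
    intro m hm hm'
    simp only [mem_filter, mem_Ioc, mem_Ico] at hm hm'
    omega
  rw [h1, filter_union, card_union_of_disjoint h2]
  congr 1
  rw [← Nat.filter_coprime_Ico_eq_totient W (n + 1)]
  congr 1
  apply filter_congr
  intro m _
  exact Nat.coprime_comm

theorem N1_cnt_le (W n : ℕ) : N1_cnt W n ≤ n := by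
  unfold N1_cnt
  refine (card_filter_le _ _).trans ?_
  simp

theorem N1_cnt_bd (W : ℕ) (hW : 0 < W) (n : ℕ) :
    |(N1_cnt W n : ℝ) - (W.totient : ℝ) / W * n| ≤ W := by
  induction n using Nat.strong_induction_on with
  | _ n ih =>
    have hW' : (0 : ℝ) < W := by exact_mod_cast hW
    have ha : (W.totient : ℝ) / W ≤ 1 := by
      rw [div_le_one hW']; exact_mod_cast Nat.totient_le W
    have ha0 : 0 ≤ (W.totient : ℝ) / W := by positivity
    by_cases h : n < W
    · have h1 : (N1_cnt W n : ℝ) ≤ n := by exact_mod_cast N1_cnt_le W n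
      have h2 : (n : ℝ) ≤ W := by exact_mod_cast h.le
      have h3 : (0 : ℝ) ≤ N1_cnt W n := by positivity
      have h4 : (W.totient : ℝ) / W * n ≤ 1 * n := by
        exact mul_le_mul_of_nonneg_right ha (by positivity)
      have h5 : 0 ≤ (W.totient : ℝ) / W * n := by positivity
      rw [abs_le]; constructor <;> linarith
    · push Not at h
      obtain ⟨k, rfl⟩ := Nat.exists_eq_add_of_le' h
      have := ih k (by omega)
      rw [N1_cnt_add]
      have e : ((N1_cnt W k + W.totient : ℕ) : ℝ) - (W.totient : ℝ) / W * ((k + W : ℕ) : ℝ) =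
          (N1_cnt W k : ℝ) - (W.totient : ℝ) / W * k := by
        push_cast
        field_simp
        ring
      rw [e]; exact this

/-- the sum of the reciprocals -/
noncomputable def N1_H (W n : ℕ) : ℝ := ∑ m ∈ (Ioc 0 n).filter (fun m => m.Coprime W), 1 / (m : ℝ)

theorem N1_H_succ (W n : ℕ) : N1_H W (n + 1) = N1_H W n +
    (if (n + 1).Coprime W then 1 else 0) / ((n : ℝ) + 1) := by
  unfold N1_H
  have h1 : Ioc 0 (n + 1) = insert (n + 1) (Ioc 0 n) := by
    ext m; simp only [mem_Ioc, mem_insert]; omega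
  rw [h1, filter_insert]
  split_ifs with h
  · rw [sum_insert (by simp)]
    push_cast; ring
  · simp

theorem N1_cnt_succ (W n : ℕ) : (N1_cnt W (n + 1) : ℝ) = N1_cnt W n +
    (if (n + 1).Coprime W then 1 else 0) := by
  unfold N1_cnt
  have h1 : Ioc 0 (n + 1) = insert (n + 1) (Ioc 0 n) := by
    ext m; simp only [mem_Ioc, mem_insert]; omega
  rw [h1, filter_insert]
  split_ifs with h
  · rw [card_insert_of_notMem (by simp)]
    push_cast; ring
  · simp

/-- harmonic sum -/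
noncomputable def N1_h (n : ℕ) : ℝ := ∑ m ∈ range n, 1 / ((m : ℝ) + 1)

theorem N1_abel (W : ℕ) (hW : 0 < W) (n : ℕ) :
    |N1_H W n - (W.totient : ℝ) / W * N1_h n -
      (N1_cnt W n - (W.totient : ℝ) / W * n) / ((n : ℝ) + 1)| ≤ W * (1 - 1 / ((n : ℝ) + 1)) := by
  induction n with
  | zero => simp [N1_H, N1_h, N1_cnt]
  | succ n ih =>
    have hb := N1_cnt_bd W hW (n + 1)
    have e : N1_H W (n + 1) - (W.totient : ℝ) / W * N1_h (n + 1) -
      (N1_cnt W (n + 1) - (W.totient : ℝ) / W * ((n + 1 : ℕ) : ℝ)) / (((n + 1 : ℕ) : ℝ) + 1) =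
      (N1_H W n - (W.totient : ℝ) / W * N1_h n -
      (N1_cnt W n - (W.totient : ℝ) / W * n) / ((n : ℝ) + 1)) +
      (N1_cnt W (n + 1) - (W.totient : ℝ) / W * ((n + 1 : ℕ) : ℝ)) *
        (1 / ((n : ℝ) + 1) - 1 / ((n : ℝ) + 2)) := by
      have h1 : N1_h (n + 1) = N1_h n + 1 / ((n : ℝ) + 1) := by
        unfold N1_h; rw [sum_range_succ]
      rw [N1_H_succ, h1, N1_cnt_succ]
      have h2 : ((n : ℝ) + 1) ≠ 0 := by positivity
      have h3 : ((n : ℝ) + 2) ≠ 0 := by positivity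
      have h4 : (W : ℝ) ≠ 0 := by positivity
      push_cast
      rw [show (n : ℝ) + 1 + 1 = n + 2 by ring]
      field_simp
      ring
    rw [e]
    have h5 : 0 ≤ 1 / ((n : ℝ) + 1) - 1 / ((n : ℝ) + 2) := by
      rw [sub_nonneg]
      apply one_div_le_one_div_of_le (by positivity)
      linarith
    refine (abs_add_le _ _).trans ?_
    rw [abs_mul, abs_of_nonneg h5]
    have h6 := mul_le_mul_of_nonneg_right hb h5
    have h7 : (((n + 1 : ℕ) : ℝ) + 1) = (n : ℝ) + 2 := by push_cast; ring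
    rw [h7]
    nlinarith

theorem N1_H_bd (W : ℕ) (hW : 0 < W) (n : ℕ) (hn : 1 ≤ n) :
    |N1_H W n - (W.totient : ℝ) / W * Real.log n| ≤ 2 * W + 1 := by
  have h1 := N1_abel W hW n
  have h2 := N1_cnt_bd W hW n
  have hW' : (1 : ℝ) ≤ W := by exact_mod_cast hW
  have hn' : (1 : ℝ) ≤ n := by exact_mod_cast hn
  have ha : (W.totient : ℝ) / W ≤ 1 := by
    rw [div_le_one (by linarith)]; exact_mod_cast Nat.totient_le W
  have ha0 : 0 ≤ (W.totient : ℝ) / W := by positivity
  have h3 : |(N1_cnt W n - (W.totient : ℝ) / W * n) / ((n : ℝ) + 1)| ≤ W := by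
    rw [abs_div, abs_of_pos (by positivity : (0 : ℝ) < (n : ℝ) + 1), div_le_iff₀ (by positivity)]
    nlinarith
  have h4 : (W : ℝ) * (1 - 1 / ((n : ℝ) + 1)) ≤ W := by
    have : 0 ≤ 1 / ((n : ℝ) + 1) := by positivity
    nlinarith
  have h5 : N1_h n = (harmonic n : ℝ) := by
    unfold N1_h harmonic
    push_cast
    apply sum_congr rfl
    intro m _
    rw [one_div]
  have h6 : Real.log n ≤ N1_h n := by
    rw [h5]
    refine le_trans ?_ (log_add_one_le_harmonic n)
    apply Real.log_le_log (by linarith)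
    push_cast; linarith
  have h7 : N1_h n ≤ 1 + Real.log n := by
    rw [h5]; exact harmonic_le_one_add_log n
  have h8 : (W.totient : ℝ) / W * (N1_h n - Real.log n) ≤ 1 := by
    have : N1_h n - Real.log n ≤ 1 := by linarith
    nlinarith
  have h9 : 0 ≤ (W.totient : ℝ) / W * (N1_h n - Real.log n) := by
    apply mul_nonneg ha0; linarith
  rw [abs_le] at h1 h3 ⊢
  constructor <;> nlinarith

theorem N1_H_real (W : ℕ) (hW : 0 < W) (x : ℝ) (hx : 1 ≤ x) :
    |N1_H W ⌊x⌋₊ - (W.totient : ℝ) / W * Real.log x| ≤ 2 * W + 2 := by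
  have hn : 1 ≤ ⌊x⌋₊ := Nat.le_floor (by simpa using hx)
  have h1 := N1_H_bd W hW _ hn
  have hn' : (1 : ℝ) ≤ ⌊x⌋₊ := by exact_mod_cast hn
  have h2 : (⌊x⌋₊ : ℝ) ≤ x := Nat.floor_le (by linarith)
  have h3 : x < ⌊x⌋₊ + 1 := Nat.lt_floor_add_one x
  have hW' : (1 : ℝ) ≤ W := by exact_mod_cast hW
  have ha : (W.totient : ℝ) / W ≤ 1 := by
    rw [div_le_one (by linarith)]; exact_mod_cast Nat.totient_le W
  have ha0 : 0 ≤ (W.totient : ℝ) / W := by positivity
  have h4 : Real.log ⌊x⌋₊ ≤ Real.log x := Real.log_le_log (by linarith) h2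
  have h5 : Real.log x ≤ Real.log ⌊x⌋₊ + 1 := by
    have h6 : x ≤ 2 * ⌊x⌋₊ := by linarith
    have h7 : Real.log x ≤ Real.log (2 * ⌊x⌋₊) := Real.log_le_log (by linarith) h6
    rw [Real.log_mul (by norm_num) (by positivity)] at h7
    have h8 : Real.log 2 ≤ 1 := by
      have := Real.log_two_lt_d9; linarith
    linarith
  have h8 : (W.totient : ℝ) / W * (Real.log x - Real.log ⌊x⌋₊) ≤ 1 := by
    have : Real.log x - Real.log ⌊x⌋₊ ≤ 1 := by linarith
    nlinarith
  have h9 : 0 ≤ (W.totient : ℝ) / W * (Real.log x - Real.log ⌊x⌋₊) := by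
    apply mul_nonneg ha0; linarith
  rw [abs_le] at h1 ⊢
  constructor <;> nlinarith

theorem N1_split (W a b : ℕ) (h : a ≤ b) :
    ∑ m ∈ (Ioc a b).filter (fun m => m.Coprime W), 1 / (m : ℝ) = N1_H W b - N1_H W a := by
  unfold N1_H
  have h1 : Ioc 0 b = Ioc 0 a ∪ Ioc a b := by
    ext m; simp only [mem_Ioc, mem_union]; omega
  have h2 : Disjoint ((Ioc 0 a).filter (fun m => m.Coprime W))
      ((Ioc a b).filter (fun m => m.Coprime W)) := by
    rw [Finset.disjoint_left]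
    intro m hm hm'
    simp only [mem_filter, mem_Ioc] at hm hm'
    omega
  rw [h1, filter_union, sum_union h2]
  ring

theorem inv_sum (W : ℕ) (hW : 0 < W) : ∃ C : ℝ, 0 < C ∧ ∀ x y : ℝ, 0 < y → y ≤ x → 1 ≤ x →
    (∑ m ∈ (Ioc ⌊y⌋₊ ⌊x⌋₊).filter (fun m => m.Coprime W), 1 / (m : ℝ) ≤
      (Nat.totient W : ℝ) / W * Real.log (x / y) + C) ∧
    (1 ≤ y → (Nat.totient W : ℝ) / W * Real.log (x / y) - C ≤
      ∑ m ∈ (Ioc ⌊y⌋₊ ⌊x⌋₊).filter (fun m => m.Coprime W), 1 / (m : ℝ)) := by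
  refine ⟨4 * W + 4, by positivity, ?_⟩
  intro x y hy hyx hx
  have hW' : (1 : ℝ) ≤ W := by exact_mod_cast hW
  have ha0 : 0 ≤ (W.totient : ℝ) / W := by positivity
  have hlog : Real.log (x / y) = Real.log x - Real.log y :=
    Real.log_div (by linarith) (by linarith)
  have hxx := abs_le.1 (N1_H_real W hW x hx)
  rw [N1_split W _ _ (Nat.floor_le_floor hyx), hlog, mul_sub]
  by_cases h1 : 1 ≤ y
  · have hyy := abs_le.1 (N1_H_real W hW y h1)
    refine ⟨?_, fun _ => ?_⟩ <;> linarith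
  · push Not at h1
    refine ⟨?_, fun h => absurd h (not_le.2 h1)⟩
    have h2 : ⌊y⌋₊ = 0 := Nat.floor_eq_zero.2 h1
    have h3 : N1_H W 0 = 0 := by simp [N1_H]
    have h4 : Real.log y ≤ 0 := Real.log_nonpos hy.le h1.le
    rw [h2, h3]
    nlinarith

end Pool.Agent.helper71.AA
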